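import Pool.Agent.L7h12.BI.Gain

set_option autoImplicit false

open MeasureTheory Set Filter Topology Real Metric
open scoped ENNReal Pointwise

namespace Pool.Agent.L7h12.BI

open Pool.Agent.L7h99.BI

/-- polar coordinates for lower integrals -/
theorem polar {d : ℕ} (hd : 1 ≤ d) (f : E d → ℝ≥0∞) (hf : Measurable f) :
    ∫⁻ x, f x = ∫⁻ σ : Sd d, ∫⁻ r : Ioi (0 : ℝ), f ((r : ℝ) • (σ : E d))
      ∂(Measure.volumeIoiPow (d - 1)) ∂(mS d) := by
  have hne : Nonempty (Fin d) := ⟨⟨0, hd⟩⟩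
  have hmp := (volume : Measure (E d)).measurePreserving_homeomorphUnitSphereProd
  have hdim : Module.finrank ℝ (E d) = d := by simp
  rw [hdim] at hmp
  have hm : Measurable fun p : Sd d × Ioi (0 : ℝ) => f ((p.2 : ℝ) • (p.1 : E d)) := by
    have hc : Measurable (fun q : Sd d × Ioi (0 : ℝ) => (q.2 : ℝ) • (q.1 : E d)) := by
      have : Continuous (fun q : Sd d × Ioi (0 : ℝ) => (q.2 : ℝ) • (q.1 : E d)) := by fun_prop
      exact this.measurable
    exact hf.comp hc
  have h1 : ∫⁻ x, f x = ∫⁻ x : ({0}ᶜ : Set (E d)), f (x : E d)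
      ∂(Measure.comap (Subtype.val : ({0}ᶜ : Set (E d)) → E d) volume) := by
    rw [lintegral_subtype_comap (measurableSet_singleton (0 : E d)).compl f]
    rw [← lintegral_add_compl f (measurableSet_singleton (0 : E d)).compl, compl_compl]
    rw [setLIntegral_measure_zero ({0} : Set (E d)) f (measure_singleton (0 : E d)), add_zero]
  rw [h1]
  have h2 := hmp.lintegral_comp hm
  have h3 : ∀ x : ({0}ᶜ : Set (E d)),
      (((homeomorphUnitSphereProd (E d) x).2 : Ioi (0 : ℝ)) : ℝ) •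
        (((homeomorphUnitSphereProd (E d) x).1 : Sd d) : E d) = (x : E d) := by
    intro x
    have hx0 : ‖(x : E d)‖ ≠ 0 := norm_ne_zero_iff.2 x.2
    rw [homeomorphUnitSphereProd_apply_snd_coe, homeomorphUnitSphereProd_apply_fst_coe,
      smul_smul, mul_inv_cancel₀ hx0, one_smul]
  simp only [h3] at h2
  rw [h2, lintegral_prod _ hm.aemeasurable]
  rfl

theorem radial {d : ℕ} (hd : 1 ≤ d) (a : ℝ) (ha : 0 < a) (K : ℝ≥0∞) :
    ∫⁻ r : Ioi (0 : ℝ), (if (r : ℝ) < a then K else 0) ∂(Measure.volumeIoiPow (d - 1)) =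
      K * ENNReal.ofReal (a ^ d / d) := by
  have h1 : ∀ r : Ioi (0 : ℝ), (if (r : ℝ) < a then K else 0) =
      (Iio (⟨a, ha⟩ : Ioi (0 : ℝ))).indicator (fun _ => K) r := by
    intro r
    by_cases h : (r : ℝ) < a
    · rw [if_pos h, indicator_of_mem]
      exact h
    · rw [if_neg h, indicator_of_notMem]
      exact h
  simp only [h1]
  rw [lintegral_indicator measurableSet_Iio, setLIntegral_const, Measure.volumeIoiPow_apply_Iio]
  have h2 : d - 1 + 1 = d := by omega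
  have h3 : (((d - 1 : ℕ) : ℝ) + 1) = d := by exact_mod_cast congrArg (Nat.cast (R := ℝ)) h2
  rw [h2, h3]

theorem meas_bt {b : ℝ → ℝ} (hb : Measurable b) (ε : ℝ) : Measurable (bt b ε) := by
  unfold bt
  refine Measurable.ite measurableSet_Ioi ?_ (Measurable.ite (measurableSet_singleton 0)
    measurable_const measurable_const)
  exact (Measurable.ite measurableSet_Iio hb measurable_const).add (hb.comp measurable_neg)

/-- the identity for the symmetrised kernel -/
theorem ident {d : ℕ} (hd : 2 ≤ d) (g : ℝ → ℝ≥0∞) (hg : Measurable g) (n : E d) (hn : ‖n‖ = 1) :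
    ∫⁻ σ : Sd d, g (ip n σ) ∂(mS d) =
      ∫⁻ σ : Sd d, (if 0 < ip n σ then g (2 * ip n σ ^ 2 - 1) *
        ENNReal.ofReal (2 ^ (d - 1) * ip n σ ^ (d - 2)) else 0) ∂(mS d) := by
  set G : E d → ℝ≥0∞ := fun k => if ‖k‖ < 1 then g (ip k n / ‖k‖) else 0 with hG
  have hip : Measurable fun k : E d => ip k n := by
    have := meas_ip (d := d)
    have h := this.comp (measurable_prodMk_right (y := n))
    exact h
  have hGm : Measurable G := by
    refine Measurable.ite (measurable_norm measurableSet_Iio) ?_ measurable_const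
    exact hg.comp (hip.div measurable_norm)
  have hd1 : 1 ≤ d := by omega
  have hd0 : (0 : ℝ) < d := by exact_mod_cast hd1
  have e1 : ∫⁻ k, G k = (∫⁻ σ : Sd d, g (ip n σ) ∂(mS d)) * ENNReal.ofReal (1 / d) := by
    rw [polar hd1 G hGm, ← lintegral_mul_const']
    · refine lintegral_congr fun σ => ?_
      have hσ : ‖(σ : E d)‖ = 1 := norm_eq_of_mem_sphere σ
      have h1 : ∀ r : Ioi (0 : ℝ), G ((r : ℝ) • (σ : E d)) =
          if (r : ℝ) < 1 then g (ip n σ) else 0 := by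
        intro r
        have hr : (0 : ℝ) < r := r.2
        simp only [hG]
        rw [norm_smul, hσ, mul_one, Real.norm_of_nonneg hr.le]
        have h2 : ip ((r : ℝ) • (σ : E d)) n / (r : ℝ) = ip n σ := by
          unfold ip
          rw [inner_smul_left, real_inner_comm]
          simp only [conj_trivial]
          field_simp
        rw [h2]
      simp only [h1]
      rw [radial hd1 1 one_pos, one_pow]
    · exact ENNReal.ofReal_ne_top
  have e2 : ∫⁻ k, G k = (∫⁻ σ : Sd d, (if 0 < ip n σ then g (2 * ip n σ ^ 2 - 1) *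
        ENNReal.ofReal (2 ^ (d - 1) * ip n σ ^ (d - 2)) else 0) ∂(mS d)) * ENNReal.ofReal (1 / d) := by
    rw [t_CV d hd n hn G hGm]
    have hm : Measurable fun y : E d => (if 0 < ip y n then G ((2 : ℝ) • y - (‖y‖ ^ 2 / ip y n) • n) *
        ENNReal.ofReal (2 ^ (d - 1) * (‖y‖ ^ 2 / ip y n ^ 2)) else 0) := by
      refine Measurable.ite (hip measurableSet_Ioi) ?_ measurable_const
      refine Measurable.mul ?_ ?_
      · refine hGm.comp ?_
        exact (measurable_id.const_smul (2 : ℝ)).sub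
          (((measurable_norm.pow_const 2).div hip).smul measurable_const)
      · exact (((measurable_norm.pow_const 2).div (hip.pow_const 2)).const_mul _).ennreal_ofReal
    rw [polar hd1 _ hm, ← lintegral_mul_const']
    · refine lintegral_congr fun σ => ?_
      have hσ : ‖(σ : E d)‖ = 1 := norm_eq_of_mem_sphere σ
      set c : ℝ := ip n σ with hc
      have hcs : ip (σ : E d) n = c := by
        rw [hc]; unfold ip; rw [real_inner_comm]
      have hrs : ∀ r : Ioi (0 : ℝ), ip ((r : ℝ) • (σ : E d)) n = r * c := by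
        intro r
        rw [← hcs]
        unfold ip
        rw [inner_smul_left]
        simp
      by_cases hc0 : 0 < c
      · rw [if_pos hc0]
        have h1 : ∀ r : Ioi (0 : ℝ), (if 0 < ip ((r : ℝ) • (σ : E d)) n then
            G ((2 : ℝ) • ((r : ℝ) • (σ : E d)) -
              (‖(r : ℝ) • (σ : E d)‖ ^ 2 / ip ((r : ℝ) • (σ : E d)) n) • n) *
            ENNReal.ofReal (2 ^ (d - 1) * (‖(r : ℝ) • (σ : E d)‖ ^ 2 /
              ip ((r : ℝ) • (σ : E d)) n ^ 2)) else 0) =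
            if (r : ℝ) < c then g (2 * c ^ 2 - 1) *
              ENNReal.ofReal (2 ^ (d - 1) * (1 / c ^ 2)) else 0 := by
          intro r
          have hr : (0 : ℝ) < r := r.2
          have hpos : 0 < ip ((r : ℝ) • (σ : E d)) n := by rw [hrs]; positivity
          rw [if_pos hpos]
          have e : (2 : ℝ) • ((r : ℝ) • (σ : E d)) -
              (‖(r : ℝ) • (σ : E d)‖ ^ 2 / ip ((r : ℝ) • (σ : E d)) n) • n =
              Psi n ((r : ℝ) • (σ : E d)) := rfl
          rw [e]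
          simp only [hG]
          rw [norm_Psi n _ hn hpos, ip_Psi n _ hn, hrs, norm_smul, hσ, mul_one,
            Real.norm_of_nonneg hr.le]
          have h2 : (r : ℝ) ^ 2 / (r * c) = r / c := by field_simp
          rw [h2]
          have h3 : ((r : ℝ) / c < 1) ↔ ((r : ℝ) < c) := by
            rw [div_lt_one hc0]
          by_cases hrc : (r : ℝ) < c
          · rw [if_pos hrc, if_pos (h3.mpr hrc)]
            congr 2
            · field_simp
            · congr 1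
              field_simp
          · rw [if_neg hrc, if_neg (fun h => hrc (h3.mp h)), zero_mul]
        simp only [h1]
        rw [radial hd1 c hc0, mul_assoc, mul_assoc]
        congr 1
        rw [← ENNReal.ofReal_mul (by positivity), ← ENNReal.ofReal_mul (by positivity)]
        congr 1
        obtain ⟨e, rfl⟩ : ∃ e, d = e + 2 := ⟨d - 2, by omega⟩
        simp only [Nat.add_sub_cancel]
        field_simp
        ring
      · rw [if_neg hc0, zero_mul]
        have h1 : ∀ r : Ioi (0 : ℝ), (if 0 < ip ((r : ℝ) • (σ : E d)) n then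
            G ((2 : ℝ) • ((r : ℝ) • (σ : E d)) -
              (‖(r : ℝ) • (σ : E d)‖ ^ 2 / ip ((r : ℝ) • (σ : E d)) n) • n) *
            ENNReal.ofReal (2 ^ (d - 1) * (‖(r : ℝ) • (σ : E d)‖ ^ 2 /
              ip ((r : ℝ) • (σ : E d)) n ^ 2)) else 0) = 0 := by
          intro r
          have hr : (0 : ℝ) < r := r.2
          rw [if_neg]
          rw [hrs]
          intro h
          exact hc0 (pos_of_mul_pos_right h hr.le)
        simp only [h1]
        exact lintegral_zero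
    · exact ENNReal.ofReal_ne_top
  have h5 : ENNReal.ofReal (1 / d) ≠ 0 := by
    rw [ne_eq, ENNReal.ofReal_eq_zero, not_le]
    positivity
  have h6 := e1.symm.trans e2
  exact (ENNReal.mul_left_inj h5 ENNReal.ofReal_ne_top).mp h6

/-- `‖σ - n‖² = 2 (1 - c)` -/
theorem dist_sq {d : ℕ} (n σ : E d) (hn : ‖n‖ = 1) (hσ : ‖σ‖ = 1) :
    ‖σ - n‖ ^ 2 = 2 * (1 - ip n σ) := by
  rw [norm_sub_sq_real, hn, hσ, real_inner_comm]
  unfold ip
  ring

theorem ip_le_one {d : ℕ} (n σ : E d) (hn : ‖n‖ = 1) (hσ : ‖σ‖ = 1) : ip n σ ≤ 1 := by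
  have := real_inner_le_norm n σ
  rw [hn, hσ, one_mul] at this
  exact this

theorem ker_c2 {d : ℕ} {s : ℝ} {b : ℝ → ℝ} {c₁ c₂ : ℝ} (h : Ker d s b c₁ c₂) : 0 < c₂ := by
  have h1 := h.low (-1) (le_refl _) (by norm_num)
  have h2 := h.upp (-1) (le_refl _) (by norm_num)
  norm_num at h1 h2
  linarith [h.pos]

/-- upper bound for the symmetrised kernel -/
theorem bt_le {d : ℕ} (hd : 2 ≤ d) {s : ℝ} (hs : 0 < s) {b : ℝ → ℝ} {c₁ c₂ : ℝ}
    (h : Ker d s b c₁ c₂) (ε c : ℝ) (hc : 1 / 2 ≤ c ^ 2) (hc1 : c ^ 2 < 1) :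
    bt b ε (2 * c ^ 2 - 1) ≤ 2 * c₂ * (1 - c ^ 2) ^ (-(((d : ℝ) - 1) / 2 + s)) := by
  have hd' : (2 : ℝ) ≤ d := by exact_mod_cast hd
  have hc2 := ker_c2 h
  set p : ℝ := ((d : ℝ) - 1) / 2 + s with hp
  have hp0 : 0 < p := by rw [hp]; linarith
  have h1c : 0 < 1 - c ^ 2 := by linarith
  have hz1 := h.upp (2 * c ^ 2 - 1) (by linarith) (by linarith)
  have hz2 := h.upp (-(2 * c ^ 2 - 1)) (by linarith) (by linarith)
  have e1 : (1 - (2 * c ^ 2 - 1)) / 2 = 1 - c ^ 2 := by ring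
  have e2 : (1 - -(2 * c ^ 2 - 1)) / 2 = c ^ 2 := by ring
  rw [e1] at hz1
  rw [e2] at hz2
  have h3 : (c ^ 2) ^ (-p) ≤ (1 - c ^ 2) ^ (-p) :=
    Real.rpow_le_rpow_of_nonpos h1c (by linarith) (by linarith)
  have h4 : 0 ≤ (1 - c ^ 2) ^ (-p) := (Real.rpow_pos_of_pos h1c _).le
  have h5 : c₂ * (c ^ 2) ^ (-p) ≤ c₂ * (1 - c ^ 2) ^ (-p) := mul_le_mul_of_nonneg_left h3 hc2.le
  have h6 : 0 ≤ c₂ * (1 - c ^ 2) ^ (-p) := mul_nonneg hc2.le h4
  unfold bt
  by_cases hz : 0 < 2 * c ^ 2 - 1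
  · rw [if_pos hz]
    split_ifs with hε
    · linarith
    · linarith
  · rw [if_neg hz]
    have hz0 : 2 * c ^ 2 - 1 = 0 := by linarith
    rw [if_pos hz0]
    rw [hz0] at hz1
    linarith

theorem bt_zero (b : ℝ → ℝ) (ε z : ℝ) (hz : z < 0) : bt b ε z = 0 := by
  unfold bt
  rw [if_neg (by linarith), if_neg (by linarith)]

/-- the power comparison -/
theorem pow_cmp {d : ℕ} (hd : 2 ≤ d) (γ : ℝ) (hγ : 0 ≤ γ) (c : ℝ) (hc0 : 0 < c)
    (hc : 1 / 2 ≤ c ^ 2) (hc1 : c ≤ 1) :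
    c ^ (-(2 + γ)) ≤ c ^ (d - 2) + 2 ^ ((2 + γ) / 2) * (((d : ℝ) + γ) / 2) * (1 - c ^ 2) := by
  have hd' : (2 : ℝ) ≤ d := by exact_mod_cast hd
  have h1 : c ^ (-(2 + γ)) ≤ 2 ^ ((2 + γ) / 2) := by
    have e : c ^ (-(2 + γ)) = (c ^ 2) ^ (-((2 + γ) / 2)) := by
      rw [← Real.rpow_natCast c 2, ← Real.rpow_mul hc0.le]
      congr 1
      push_cast
      ring
    rw [e]
    have : (c ^ 2) ^ (-((2 + γ) / 2)) ≤ (1 / 2 : ℝ) ^ (-((2 + γ) / 2)) :=
      Real.rpow_le_rpow_of_nonpos (by norm_num) hc (by linarith)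
    refine this.trans (le_of_eq ?_)
    rw [one_div, Real.inv_rpow (by norm_num), Real.rpow_neg (by norm_num), inv_inv]
  have h2 : c ^ (d - 2) = c ^ (-(2 + γ)) * (c ^ 2) ^ (((d : ℝ) + γ) / 2) := by
    rw [← Real.rpow_natCast c (d - 2), ← Real.rpow_natCast c 2, ← Real.rpow_mul hc0.le,
      ← Real.rpow_add hc0]
    congr 1
    rw [Nat.cast_sub hd]
    push_cast
    ring
  have h3 : 1 - (((d : ℝ) + γ) / 2) * (1 - c ^ 2) ≤ (c ^ 2) ^ (((d : ℝ) + γ) / 2) := by
    have := one_add_mul_self_le_rpow_one_add (s := c ^ 2 - 1) (by nlinarith) (p := ((d : ℝ) + γ) / 2)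
      (by linarith)
    have e : 1 + (c ^ 2 - 1) = c ^ 2 := by ring
    rw [e] at this
    linarith
  have h4 : 0 ≤ c ^ (-(2 + γ)) := (Real.rpow_pos_of_pos hc0 _).le
  have hcc : 0 ≤ 1 - c ^ 2 := by nlinarith
  have h5 : 0 ≤ (((d : ℝ) + γ) / 2) * (1 - c ^ 2) := mul_nonneg (by linarith) hcc
  rw [h2]
  nlinarith [mul_le_mul_of_nonneg_left h3 h4, mul_le_mul_of_nonneg_right h1 h5]

theorem real_facts (c u : ℝ) (hc0 : 0 < c) (_hz : 1 / 2 ≤ c ^ 2) (h1 : c < 1) (hu0 : 0 ≤ u)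
    (hu2 : u ^ 2 = 2 * (1 - c)) : 0 < 1 - c ^ 2 ∧ 0 < u ∧ min 1 ((1 / 2) ^ 2 * u ^ 2) = u ^ 2 / 4 ∧
      1 - c ^ 2 ≤ u ^ 2 ∧ u ^ 2 / 2 ≤ 1 - c ^ 2 := by
  have hcc' : 0 < 1 - c ^ 2 := by nlinarith
  refine ⟨hcc', ?_, ?_, ?_, ?_⟩
  · rcases eq_or_lt_of_le hu0 with h0 | h0
    · rw [← h0] at hu2
      nlinarith
    · exact h0
  · rw [min_eq_right]
    · ring
    · rw [hu2]
      linarith
  · rw [hu2]
    nlinarith [sq_nonneg (1 - c)]
  · rw [hu2]
    nlinarith [mul_nonneg hc0.le (sub_nonneg.2 h1.le)]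

theorem t_CAN : S_SP → S_CAN := by
  intro hSP d hd s hs0 hs1 γ hγ b c₁ c₂ hK
  obtain ⟨⟨C, hC, hSP1⟩, -⟩ := hSP d hd s hs0 hs1
  have hd' : (2 : ℝ) ≤ d := by exact_mod_cast hd
  have hc2 := ker_c2 hK
  set p : ℝ := ((d : ℝ) - 1) / 2 + s with hp
  have hp0 : 0 < p := by rw [hp]; linarith
  set A : ℝ := 2 ^ (d - 1) * (2 ^ ((2 + γ) / 2) * (((d : ℝ) + γ) / 2)) * (2 * c₂) with hA
  have hA0 : 0 < A := by
    rw [hA]
    have : 0 < ((d : ℝ) + γ) / 2 := by linarith
    positivity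
  set B : ℝ := A * (2 ^ p * 4) with hB
  have hB0 : 0 < B := by rw [hB]; positivity
  refine ⟨B * (C * (1 / 2) ^ (2 * s)), by positivity, ?_⟩
  intro ε hε0 hε1 n hn
  -- pointwise
  have key : ∀ σ : Sd d, Bt d γ b ε (ip n σ) ≤
      (if 0 < ip n σ then ENNReal.ofReal (bt b ε (2 * ip n σ ^ 2 - 1)) *
        ENNReal.ofReal (2 ^ (d - 1) * ip n σ ^ (d - 2)) else 0) +
      ENNReal.ofReal B * ENNReal.ofReal (min 1 ((1 / 2) ^ 2 * ‖(σ : E d) - n‖ ^ 2) *
      ‖(σ : E d) - n‖ ^ (-((d : ℝ) - 1 + 2 * s))) := by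
    intro σ
    have hσ : ‖(σ : E d)‖ = 1 := norm_eq_of_mem_sphere σ
    set c : ℝ := ip n σ with hc
    have hc1 : c ≤ 1 := ip_le_one n σ hn hσ
    have hu2 := dist_sq n σ hn hσ
    rw [← hc] at hu2
    set u : ℝ := ‖(σ : E d) - n‖ with hu
    have hu0 : 0 ≤ u := norm_nonneg _
    unfold Bt
    by_cases hc0 : 0 < c
    · rw [if_pos hc0, if_pos hc0]
      by_cases hz : 2 * c ^ 2 - 1 < 0
      · rw [bt_zero b ε _ hz, ENNReal.ofReal_zero, mul_zero]
        exact zero_le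
      · have hz' : 1 / 2 ≤ c ^ 2 := by linarith
        have hpc := pow_cmp hd γ hγ c hc0 hz' hc1
        have hcc : 0 ≤ 1 - c ^ 2 := by nlinarith
        have hK1 : 0 ≤ 2 ^ ((2 + γ) / 2) * (((d : ℝ) + γ) / 2) := by
          have : 0 < ((d : ℝ) + γ) / 2 := by linarith
          positivity
        calc ENNReal.ofReal (2 ^ (d - 1) * c ^ (-(2 + γ))) * ENNReal.ofReal (bt b ε (2 * c ^ 2 - 1))
            ≤ ENNReal.ofReal (2 ^ (d - 1) * c ^ (d - 2) +
              2 ^ (d - 1) * (2 ^ ((2 + γ) / 2) * (((d : ℝ) + γ) / 2) * (1 - c ^ 2))) *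
                ENNReal.ofReal (bt b ε (2 * c ^ 2 - 1)) := by
              gcongr
              have h2 : (0 : ℝ) < 2 ^ (d - 1) := by positivity
              nlinarith [mul_le_mul_of_nonneg_left hpc h2.le]
          _ = ENNReal.ofReal (bt b ε (2 * c ^ 2 - 1)) * ENNReal.ofReal (2 ^ (d - 1) * c ^ (d - 2)) +
              ENNReal.ofReal (2 ^ (d - 1) * (2 ^ ((2 + γ) / 2) * (((d : ℝ) + γ) / 2) * (1 - c ^ 2))) *
                ENNReal.ofReal (bt b ε (2 * c ^ 2 - 1)) := by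
              rw [ENNReal.ofReal_add (by positivity) (by positivity), add_mul, mul_comm]
          _ ≤ _ := by
              refine add_le_add le_rfl ?_
              rw [← ENNReal.ofReal_mul (by positivity), ← ENNReal.ofReal_mul hB0.le]
              apply ENNReal.ofReal_le_ofReal
              rcases eq_or_lt_of_le hc1 with h1 | h1
              · rw [h1]
                norm_num
                positivity
              · obtain ⟨hcc', hupos, hmin, hle1, hge1⟩ := real_facts c u hc0 hz' h1 hu0 hu2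
                have hb := bt_le hd hs0 hK ε c hz' (by linarith)
                rw [← hp] at hb
                rw [hmin]
                have hpw : (1 - c ^ 2) ^ (-p) ≤ 2 ^ p * u ^ (-((d : ℝ) - 1 + 2 * s)) := by
                  have h7 : (1 - c ^ 2) ^ (-p) ≤ (u ^ 2 / 2) ^ (-p) :=
                    Real.rpow_le_rpow_of_nonpos (by positivity) hge1 (by linarith)
                  refine h7.trans (le_of_eq ?_)
                  rw [Real.div_rpow (by positivity) (by norm_num), ← Real.rpow_natCast u 2,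
                    ← Real.rpow_mul hu0, Real.rpow_neg (by norm_num : (0 : ℝ) ≤ 2) p, div_inv_eq_mul,
                    mul_comm]
                  congr 2
                  rw [hp]
                  push_cast
                  ring
                have hub : 0 ≤ u ^ (-((d : ℝ) - 1 + 2 * s)) := (Real.rpow_pos_of_pos hupos _).le
                have hq0 : 0 ≤ (1 - c ^ 2) ^ (-p) := (Real.rpow_pos_of_pos hcc' _).le
                calc 2 ^ (d - 1) * (2 ^ ((2 + γ) / 2) * (((d : ℝ) + γ) / 2) * (1 - c ^ 2)) *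
                      bt b ε (2 * c ^ 2 - 1)
                    ≤ 2 ^ (d - 1) * (2 ^ ((2 + γ) / 2) * (((d : ℝ) + γ) / 2) * (1 - c ^ 2)) *
                      (2 * c₂ * (1 - c ^ 2) ^ (-p)) := by gcongr
                  _ = A * ((1 - c ^ 2) * (1 - c ^ 2) ^ (-p)) := by rw [hA]; ring
                  _ ≤ A * (u ^ 2 * (2 ^ p * u ^ (-((d : ℝ) - 1 + 2 * s)))) := by gcongr
                  _ = B * (u ^ 2 / 4 * u ^ (-((d : ℝ) - 1 + 2 * s))) := by rw [hB]; ring
    · rw [if_neg hc0]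
      exact zero_le
  have hmeas : Measurable fun σ : Sd d => ENNReal.ofReal B *
      ENNReal.ofReal (min 1 ((1 / 2) ^ 2 * ‖(σ : E d) - n‖ ^ 2) *
      ‖(σ : E d) - n‖ ^ (-((d : ℝ) - 1 + 2 * s))) := by
    have h1 : Measurable fun σ : Sd d => ‖(σ : E d) - n‖ :=
      (measurable_subtype_coe.sub_const n).norm
    exact ((((measurable_const.min ((h1.pow_const 2).const_mul _)).mul
      (h1.pow_const _)).ennreal_ofReal).const_mul _)
  calc ∫⁻ σ : Sd d, Bt d γ b ε (ip n σ) ∂(mS d)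
      ≤ ∫⁻ σ : Sd d, ((if 0 < ip n σ then ENNReal.ofReal (bt b ε (2 * ip n σ ^ 2 - 1)) *
        ENNReal.ofReal (2 ^ (d - 1) * ip n σ ^ (d - 2)) else 0) +
      ENNReal.ofReal B * ENNReal.ofReal (min 1 ((1 / 2) ^ 2 * ‖(σ : E d) - n‖ ^ 2) *
      ‖(σ : E d) - n‖ ^ (-((d : ℝ) - 1 + 2 * s)))) ∂(mS d) := lintegral_mono key
    _ = (∫⁻ σ : Sd d, (if 0 < ip n σ then ENNReal.ofReal (bt b ε (2 * ip n σ ^ 2 - 1)) *
        ENNReal.ofReal (2 ^ (d - 1) * ip n σ ^ (d - 2)) else 0) ∂(mS d)) +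
        ∫⁻ σ : Sd d, ENNReal.ofReal B * ENNReal.ofReal (min 1 ((1 / 2) ^ 2 * ‖(σ : E d) - n‖ ^ 2) *
      ‖(σ : E d) - n‖ ^ (-((d : ℝ) - 1 + 2 * s))) ∂(mS d) := lintegral_add_right _ hmeas
    _ ≤ (∫⁻ σ : Sd d, ENNReal.ofReal (bt b ε (ip n σ)) ∂(mS d)) +
        ENNReal.ofReal (B * (C * (1 / 2) ^ (2 * s))) := by
      refine add_le_add ?_ ?_
      · exact (ident hd (fun z => ENNReal.ofReal (bt b ε z)) (meas_bt hK.meas ε).ennreal_ofReal
          n hn).symm.le
      · rw [lintegral_const_mul' _ _ ENNReal.ofReal_ne_top, ENNReal.ofReal_mul hB0.le]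
        gcongr
        exact hSP1 n hn (1 / 2) (by norm_num)

end Pool.Agent.L7h12.BI
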