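import Pool.Agent.L7h12.BI.Can
import Pool.Agent.L7h99.BI.Stm3

set_option autoImplicit false

open MeasureTheory Set Filter Topology Real Metric
open scoped ENNReal Pointwise

namespace Pool.Agent.L7h12.BI

open Pool.Agent.L7h99.BI

/-- on `(0, 1]` the kernel `Bt` increases with `γ` -/
theorem Bt_mono {d : ℕ} {γ γ' : ℝ} (h : γ ≤ γ') (b : ℝ → ℝ) (ε c : ℝ) (hc : c ≤ 1) :
    Bt d γ b ε c ≤ Bt d γ' b ε c := by
  unfold Bt
  by_cases h0 : 0 < c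
  · rw [if_pos h0, if_pos h0]
    gcongr ENNReal.ofReal (2 ^ (d - 1) * ?_) * _
    exact Real.rpow_le_rpow_of_exponent_ge h0 hc (by linarith)
  · rw [if_neg h0, if_neg h0]

theorem t_CAN3 : S_SP → S_CAN3 := by
  intro hSP d hd s hs0 hs1 γ b c₁ c₂ hK
  by_cases hγ : 0 ≤ γ
  · exact t_CAN hSP d hd s hs0 hs1 γ hγ b c₁ c₂ hK
  · obtain ⟨C, hC, h⟩ := t_CAN hSP d hd s hs0 hs1 0 (le_refl _) b c₁ c₂ hK
    refine ⟨C, hC, fun ε hε0 hε1 n hn => ?_⟩
    refine le_trans (lintegral_mono fun σ => ?_) (h ε hε0 hε1 n hn)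
    exact Bt_mono (by linarith) b ε _ (ip_le_one n σ hn (norm_eq_of_mem_sphere σ))

end Pool.Agent.L7h12.BI
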