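import Pool.Agent.L7h99.BI.Stm

set_option autoImplicit false

open MeasureTheory Set Filter Topology Real Metric
open scoped ENNReal Pointwise

namespace Pool.Agent.L7h12.BI

open Pool.Agent.L7h99.BI

/-- the change of variables -/
noncomputable def Psi {d : ℕ} (σ y : E d) : E d := (2 : ℝ) • y - (‖y‖ ^ 2 / ip y σ) • σ

/-- derivative of `‖y‖² / (y·σ)` -/
noncomputable def ly {d : ℕ} (σ y : E d) : E d →L[ℝ] ℝ :=
  (ip y σ)⁻¹ • ((2 : ℝ) • (innerSL ℝ y)) + (‖y‖ ^ 2 * (-(ip y σ ^ 2)⁻¹)) • (innerSL ℝ σ)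

/-- derivative of `Psi` -/
noncomputable def DPsi {d : ℕ} (σ y : E d) : E d →L[ℝ] E d :=
  (2 : ℝ) • ContinuousLinearMap.id ℝ (E d) - (ly σ y).smulRight σ

theorem hasFDerivAt_q {d : ℕ} (σ y : E d) (hy : 0 < ip y σ) :
    HasFDerivAt (fun y : E d => ‖y‖ ^ 2 / ip y σ) (ly σ y) y := by
  have h1 : HasFDerivAt (fun y : E d => ‖y‖ ^ 2) ((2 : ℝ) • (innerSL ℝ y)) y := by
    have := (hasStrictFDerivAt_norm_sq y).hasFDerivAt
    exact this.congr_fderiv (by ext z; simp)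
  have h2 : HasFDerivAt (fun y : E d => ip y σ) (innerSL ℝ σ : E d →L[ℝ] ℝ) y := by
    have h : (fun y : E d => ip y σ) = fun y => (innerSL ℝ σ : E d →L[ℝ] ℝ) y := by
      ext y
      unfold ip
      rw [innerSL_apply_apply, real_inner_comm]
    rw [h]
    exact (innerSL ℝ σ : E d →L[ℝ] ℝ).hasFDerivAt
  have h3 : HasFDerivAt (fun y : E d => (ip y σ)⁻¹) ((-(ip y σ ^ 2)⁻¹) • (innerSL ℝ σ : E d →L[ℝ] ℝ)) y :=
    (hasDerivAt_inv hy.ne').comp_hasFDerivAt y h2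
  have h4 := h1.mul h3
  have h5 : (fun y : E d => ‖y‖ ^ 2 / ip y σ) = fun y => ‖y‖ ^ 2 * (ip y σ)⁻¹ := by
    ext y; rw [div_eq_mul_inv]
  rw [h5]
  refine h4.congr_fderiv ?_
  unfold ly
  ext z
  simp only [add_apply, smul_apply, smul_eq_mul]
  ring

theorem hasFDerivAt_Psi {d : ℕ} (σ y : E d) (hy : 0 < ip y σ) :
    HasFDerivAt (Psi σ) (DPsi σ y) y := by
  have h1 : HasFDerivAt (fun y : E d => (2 : ℝ) • y) ((2 : ℝ) • ContinuousLinearMap.id ℝ (E d)) y :=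
    (hasFDerivAt_id y).const_smul (2 : ℝ)
  have h2 := (hasFDerivAt_q σ y hy).smul_const σ
  exact h1.sub h2

theorem det_DPsi {d : ℕ} (hd : 1 ≤ d) (σ y : E d) (hσ : ‖σ‖ = 1) (hy : 0 < ip y σ) :
    (DPsi σ y).det = 2 ^ (d - 1) * (‖y‖ ^ 2 / ip y σ ^ 2) := by
  have h1 : ((DPsi σ y : E d →L[ℝ] E d) : E d →ₗ[ℝ] E d) =
      (2 : ℝ) • LinearMap.transvection ((-(1 / 2 : ℝ)) • ((ly σ y : E d →L[ℝ] ℝ) : E d →ₗ[ℝ] ℝ)) σ := by
    ext1 x
    show (2 : ℝ) • x - (ly σ y x) • σ = (2 : ℝ) • (x + ((-(1 / 2 : ℝ)) • (ly σ y x)) • σ)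
    rw [smul_add, smul_smul, smul_eq_mul, sub_eq_add_neg, ← neg_smul]
    congr 2
    ring
  show LinearMap.det ((DPsi σ y : E d →L[ℝ] E d) : E d →ₗ[ℝ] E d) = _
  rw [h1, LinearMap.det_smul, LinearMap.transvection.det]
  have h2 : ly σ y σ = 2 - ‖y‖ ^ 2 / ip y σ ^ 2 := by
    unfold ly
    simp only [add_apply, smul_apply, smul_eq_mul,
      innerSL_apply_apply, real_inner_self_eq_norm_sq, hσ]
    have : inner ℝ y σ = ip y σ := rfl
    rw [this]
    field_simp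
    ring
  have h3 : ((-(1 / 2 : ℝ)) • ((ly σ y : E d →L[ℝ] ℝ) : E d →ₗ[ℝ] ℝ)) σ =
      -(1 / 2) * (2 - ‖y‖ ^ 2 / ip y σ ^ 2) := by
    show (-(1 / 2 : ℝ)) * (ly σ y σ) = _
    rw [h2]
  rw [h3]
  have h4 : Module.finrank ℝ (E d) = d := by simp
  rw [h4]
  obtain ⟨e, rfl⟩ : ∃ e, d = e + 1 := ⟨d - 1, by omega⟩
  simp only [Nat.add_sub_cancel]
  ring

theorem norm_Psi {d : ℕ} (σ y : E d) (hσ : ‖σ‖ = 1) (hy : 0 < ip y σ) :
    ‖Psi σ y‖ = ‖y‖ ^ 2 / ip y σ := by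
  have h1 : ‖Psi σ y‖ ^ 2 = (‖y‖ ^ 2 / ip y σ) ^ 2 := by
    unfold Psi
    rw [norm_sub_sq_real, inner_smul_left, inner_smul_right, norm_smul, norm_smul, hσ]
    have : inner ℝ y σ = ip y σ := rfl
    rw [this]
    simp only [Real.norm_eq_abs, mul_one, conj_trivial, sq_abs, mul_pow]
    field_simp
    ring
  have h2 : 0 ≤ ‖y‖ ^ 2 / ip y σ := by positivity
  exact (pow_left_inj₀ (norm_nonneg _) h2 (by norm_num)).mp h1

theorem ip_Psi {d : ℕ} (σ y : E d) (hσ : ‖σ‖ = 1) :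
    ip (Psi σ y) σ = 2 * ip y σ - ‖y‖ ^ 2 / ip y σ := by
  unfold Psi ip
  rw [inner_sub_left, inner_smul_left, inner_smul_left, real_inner_self_eq_norm_sq, hσ]
  simp

/-- inverse of `Psi` -/
noncomputable def Phi {d : ℕ} (σ k : E d) : E d := (1 / 2 : ℝ) • (k + ‖k‖ • σ)

theorem Phi_Psi {d : ℕ} (σ y : E d) (hσ : ‖σ‖ = 1) (hy : 0 < ip y σ) : Phi σ (Psi σ y) = y := by
  unfold Phi
  rw [norm_Psi σ y hσ hy]
  unfold Psi
  rw [sub_add_cancel, smul_smul]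
  norm_num

theorem ip_Phi {d : ℕ} (σ k : E d) (hσ : ‖σ‖ = 1) : ip (Phi σ k) σ = (‖k‖ + ip k σ) / 2 := by
  unfold Phi ip
  rw [inner_smul_left, inner_add_left, inner_smul_left, real_inner_self_eq_norm_sq, hσ]
  simp
  ring

theorem norm_Phi_sq {d : ℕ} (σ k : E d) (hσ : ‖σ‖ = 1) :
    ‖Phi σ k‖ ^ 2 = ‖k‖ * ((‖k‖ + ip k σ) / 2) := by
  unfold Phi
  rw [norm_smul, mul_pow, norm_add_sq_real, inner_smul_right, norm_smul, hσ]
  have : inner ℝ k σ = ip k σ := rfl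
  rw [this]
  simp only [Real.norm_eq_abs, mul_one, sq_abs, abs_norm]
  ring

theorem Psi_Phi {d : ℕ} (σ k : E d) (hσ : ‖σ‖ = 1) (hk : 0 < ‖k‖ + ip k σ) :
    Psi σ (Phi σ k) = k := by
  unfold Psi
  rw [norm_Phi_sq σ k hσ, ip_Phi σ k hσ, mul_div_assoc, div_self (by positivity), mul_one]
  unfold Phi
  rw [smul_smul]
  norm_num

theorem image_Psi {d : ℕ} (σ : E d) (hσ : ‖σ‖ = 1) :
    Psi σ '' {y | 0 < ip y σ} = {k | 0 < ‖k‖ + ip k σ} := by
  ext k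
  constructor
  · rintro ⟨y, hy, rfl⟩
    have hy' : 0 < ip y σ := hy
    show 0 < ‖Psi σ y‖ + ip (Psi σ y) σ
    rw [norm_Psi σ y hσ hy', ip_Psi σ y hσ]
    linarith
  · intro hk
    have hk' : 0 < ‖k‖ + ip k σ := hk
    refine ⟨Phi σ k, ?_, Psi_Phi σ k hσ hk'⟩
    show 0 < ip (Phi σ k) σ
    rw [ip_Phi σ k hσ]
    linarith

theorem null_compl {d : ℕ} (hd : 2 ≤ d) (σ : E d) (hσ : ‖σ‖ = 1) :
    (volume : Measure (E d)) {k | 0 < ‖k‖ + ip k σ}ᶜ = 0 := by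
  have h1 : {k : E d | 0 < ‖k‖ + ip k σ}ᶜ ⊆ (Submodule.span ℝ {σ} : Set (E d)) := by
    intro k hk
    have hk' : ‖k‖ + ip k σ ≤ 0 := by
      by_contra h
      exact hk (not_le.mp h)
    have h2 : ‖k + ‖k‖ • σ‖ ^ 2 ≤ 0 := by
      rw [norm_add_sq_real, inner_smul_right, norm_smul, hσ]
      have : inner ℝ k σ = ip k σ := rfl
      rw [this]
      simp only [Real.norm_eq_abs, mul_one, abs_norm]
      nlinarith [norm_nonneg k]
    have h3 : k + ‖k‖ • σ = 0 := by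
      have : ‖k + ‖k‖ • σ‖ = 0 := by
        have := norm_nonneg (k + ‖k‖ • σ)
        nlinarith
      exact norm_eq_zero.mp this
    have h4 : k = (-‖k‖) • σ := by
      rw [neg_smul]
      exact eq_neg_of_add_eq_zero_left h3
    rw [h4]
    exact Submodule.smul_mem _ _ (Submodule.mem_span_singleton_self σ)
  refine measure_mono_null h1 (Measure.addHaar_submodule _ _ ?_)
  intro h
  have h5 : Module.finrank ℝ (Submodule.span ℝ ({σ} : Set (E d))) ≤ 1 := by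
    have := finrank_span_singleton (K := ℝ) (v := σ) (by intro h; rw [h, norm_zero] at hσ; exact zero_ne_one hσ)
    exact this.le
  rw [h, finrank_top] at h5
  have : Module.finrank ℝ (E d) = d := by simp
  omega

theorem t_CV : S_CV := by
  intro d hd σ hσ G hG
  have hs : MeasurableSet {y : E d | 0 < ip y σ} := by
    refine (isOpen_lt continuous_const ?_).measurableSet
    unfold ip
    exact continuous_id.inner continuous_const
  have ht : MeasurableSet {k : E d | 0 < ‖k‖ + ip k σ} := by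
    refine (isOpen_lt continuous_const ?_).measurableSet
    unfold ip
    exact continuous_norm.add (continuous_id.inner continuous_const)
  have h1 : ∫⁻ k, G k = ∫⁻ k in {k : E d | 0 < ‖k‖ + ip k σ}, G k := by
    rw [← lintegral_add_compl G ht]
    rw [setLIntegral_measure_zero _ _ (null_compl hd σ hσ), add_zero]
  rw [h1, ← image_Psi σ hσ]
  rw [lintegral_image_eq_lintegral_abs_det_fderiv_mul volume hs (f' := DPsi σ)
    (fun y hy => (hasFDerivAt_Psi σ y hy).hasFDerivWithinAt) (by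
      intro y hy z hz hyz
      rw [← Phi_Psi σ y hσ hy, ← Phi_Psi σ z hσ hz, hyz]) G]
  rw [← lintegral_indicator hs]
  refine lintegral_congr fun y => ?_
  by_cases hy : 0 < ip y σ
  · rw [indicator_of_mem (show y ∈ {y : E d | 0 < ip y σ} from hy), if_pos hy, mul_comm]
    rw [det_DPsi (by omega) σ y hσ hy, abs_of_nonneg (by positivity)]
    rfl
  · rw [indicator_of_notMem (show y ∉ {y : E d | 0 < ip y σ} from hy), if_neg hy]

end Pool.Agent.L7h12.BI
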