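import Pool.Agent.L7h12.BI.Iso
import Pool.Agent.L7h12.BI.Cv

set_option autoImplicit false

open MeasureTheory Set Filter Topology Real Metric
open scoped ENNReal Pointwise

namespace Pool.Agent.L7h12.BI

open Pool.Agent.L7h99.BI

/-- the integrand on the left -/
noncomputable def Gl {d : ℕ} (γ : ℝ) (κ : ℝ → ℝ≥0∞) (H : E d × E d → ℝ≥0∞) (v k σ : E d) : ℝ≥0∞ :=
  ENNReal.ofReal (‖k‖ ^ γ) * κ (ip k σ / ‖k‖) *
      H (v - (1 / 2 : ℝ) • (k + ‖k‖ • σ), v - (1 / 2 : ℝ) • (k - ‖k‖ • σ))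

/-- the integrand on the right -/
noncomputable def Gr {d : ℕ} (γ : ℝ) (κ : ℝ → ℝ≥0∞) (H : E d × E d → ℝ≥0∞) (v y σ : E d) : ℝ≥0∞ :=
  if 0 < ip y σ then ENNReal.ofReal (‖y‖ ^ γ) *
      (ENNReal.ofReal (2 ^ (d - 1) * (ip y σ / ‖y‖) ^ (-(2 + γ))) *
        κ (2 * (ip y σ / ‖y‖) ^ 2 - 1)) * H (v - y, vq v y σ) else 0

theorem meas_ip {d : ℕ} : Measurable fun p : E d × E d => ip p.1 p.2 := by
  unfold ip
  exact measurable_fst.inner measurable_snd

theorem meas_Gl {d : ℕ} (γ : ℝ) (κ : ℝ → ℝ≥0∞) (hκ : Measurable κ) (H : E d × E d → ℝ≥0∞)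
    (hH : Measurable H) (v : E d) : Measurable fun p : E d × E d => Gl γ κ H v p.1 p.2 := by
  unfold Gl
  have h1 : Measurable fun p : E d × E d => ENNReal.ofReal (‖p.1‖ ^ γ) :=
    (measurable_fst.norm.pow_const γ).ennreal_ofReal
  have h2 : Measurable fun p : E d × E d => κ (ip p.1 p.2 / ‖p.1‖) :=
    hκ.comp (meas_ip.div measurable_fst.norm)
  have h3 : Measurable fun p : E d × E d => (v - (1 / 2 : ℝ) • (p.1 + ‖p.1‖ • p.2),
      v - (1 / 2 : ℝ) • (p.1 - ‖p.1‖ • p.2)) := by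
    refine Measurable.prodMk ?_ ?_
    · exact ((measurable_fst.add (measurable_fst.norm.smul measurable_snd)).const_smul (1 / 2 : ℝ)).const_sub v
    · exact ((measurable_fst.sub (measurable_fst.norm.smul measurable_snd)).const_smul (1 / 2 : ℝ)).const_sub v
  exact (h1.mul h2).mul (hH.comp h3)

theorem meas_Gr {d : ℕ} (γ : ℝ) (κ : ℝ → ℝ≥0∞) (hκ : Measurable κ) (H : E d × E d → ℝ≥0∞)
    (hH : Measurable H) (v : E d) : Measurable fun p : E d × E d => Gr γ κ H v p.1 p.2 := by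
  unfold Gr
  have h0 : MeasurableSet {p : E d × E d | 0 < ip p.1 p.2} := meas_ip measurableSet_Ioi
  refine Measurable.ite h0 ?_ measurable_const
  have h1 : Measurable fun p : E d × E d => ENNReal.ofReal (‖p.1‖ ^ γ) :=
    (measurable_fst.norm.pow_const γ).ennreal_ofReal
  have h2 : Measurable fun p : E d × E d => κ (2 * (ip p.1 p.2 / ‖p.1‖) ^ 2 - 1) :=
    hκ.comp ((((meas_ip.div measurable_fst.norm).pow_const 2).const_mul 2).sub_const 1)
  have h4 : Measurable fun p : E d × E d =>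
      ENNReal.ofReal (2 ^ (d - 1) * (ip p.1 p.2 / ‖p.1‖) ^ (-(2 + γ))) :=
    (((meas_ip.div measurable_fst.norm).pow_const (-(2 + γ))).const_mul _).ennreal_ofReal
  have h3 : Measurable fun p : E d × E d => (v - p.1, vq v p.1 p.2) := by
    refine Measurable.prodMk (measurable_fst.const_sub v) ?_
    unfold vq
    exact (measurable_fst.const_sub v).add (((measurable_fst.norm.pow_const 2).div meas_ip).smul measurable_snd)
  exact (h1.mul (h4.mul h2)).mul (hH.comp h3)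

theorem fixed {d : ℕ} (hd : 2 ≤ d) (γ : ℝ) (κ : ℝ → ℝ≥0∞) (hκ : Measurable κ)
    (H : E d × E d → ℝ≥0∞) (hH : Measurable H) (v σ : E d) (hσ : ‖σ‖ = 1) :
    ∫⁻ k, Gl γ κ H v k σ = ∫⁻ y, Gr γ κ H v y σ := by
  have hm0 := (meas_Gl γ κ hκ H hH v).comp (measurable_prodMk_right (y := σ))
  have hm : Measurable fun k : E d => Gl γ κ H v k σ := hm0
  rw [t_CV d hd σ hσ (fun k => Gl γ κ H v k σ) hm]
  refine lintegral_congr fun y => ?_
  unfold Gr
  by_cases hy : 0 < ip y σ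
  · rw [if_pos hy, if_pos hy]
    have hy0 : y ≠ 0 := by
      rintro rfl
      unfold ip at hy
      rw [inner_zero_left] at hy
      exact lt_irrefl _ hy
    have hny : 0 < ‖y‖ := norm_pos_iff.mpr hy0
    have e1 : (2 : ℝ) • y - (‖y‖ ^ 2 / ip y σ) • σ = Psi σ y := rfl
    rw [e1]
    unfold Gl
    rw [norm_Psi σ y hσ hy, ip_Psi σ y hσ]
    have e2 : (1 / 2 : ℝ) • (Psi σ y + (‖y‖ ^ 2 / ip y σ) • σ) = y := by
      unfold Psi
      rw [sub_add_cancel, smul_smul]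
      norm_num
    have e3 : v - (1 / 2 : ℝ) • (Psi σ y - (‖y‖ ^ 2 / ip y σ) • σ) = vq v y σ := by
      unfold Psi vq
      module
    rw [e2, e3]
    have e4 : (2 * ip y σ - ‖y‖ ^ 2 / ip y σ) / (‖y‖ ^ 2 / ip y σ) = 2 * (ip y σ / ‖y‖) ^ 2 - 1 := by
      field_simp
    rw [e4]
    have e5 : ENNReal.ofReal ((‖y‖ ^ 2 / ip y σ) ^ γ) *
        ENNReal.ofReal (2 ^ (d - 1) * (‖y‖ ^ 2 / ip y σ ^ 2)) =
        ENNReal.ofReal (‖y‖ ^ γ) * ENNReal.ofReal (2 ^ (d - 1) * (ip y σ / ‖y‖) ^ (-(2 + γ))) := by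
      rw [← ENNReal.ofReal_mul (by positivity), ← ENNReal.ofReal_mul (by positivity)]
      congr 1
      have hc : 0 < ip y σ / ‖y‖ := by positivity
      have f1 : ‖y‖ ^ 2 / ip y σ = ‖y‖ * (ip y σ / ‖y‖)⁻¹ := by
        field_simp
      have f2 : ‖y‖ ^ 2 / ip y σ ^ 2 = (ip y σ / ‖y‖) ^ (-(2 : ℝ)) := by
        rw [Real.rpow_neg hc.le, Real.rpow_two]
        field_simp
      rw [f1, f2, Real.mul_rpow hny.le (inv_nonneg.mpr hc.le), Real.inv_rpow hc.le, ← Real.rpow_neg hc.le]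
      have f3 : (ip y σ / ‖y‖) ^ (-(2 + γ)) = (ip y σ / ‖y‖) ^ (-γ) * (ip y σ / ‖y‖) ^ (-(2 : ℝ)) := by
        rw [← Real.rpow_add hc]
        congr 1
        ring
      rw [f3]
      ring
    calc _ = (ENNReal.ofReal ((‖y‖ ^ 2 / ip y σ) ^ γ) *
        ENNReal.ofReal (2 ^ (d - 1) * (‖y‖ ^ 2 / ip y σ ^ 2))) *
          κ (2 * (ip y σ / ‖y‖) ^ 2 - 1) * H (v - y, vq v y σ) := by ring
      _ = _ := by
        rw [e5]
        ring
  · rw [if_neg hy, if_neg hy]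

theorem gain1 {d : ℕ} (hd : 2 ≤ d) (γ : ℝ) (κ : ℝ → ℝ≥0∞) (hκ : Measurable κ)
    (H : E d × E d → ℝ≥0∞) (hH : Measurable H) (v : E d) :
    ∫⁻ k : E d, ∫⁻ σ : Sd d, Gl γ κ H v k σ ∂(mS d) = ∫⁻ y : E d, ∫⁻ σ : Sd d, Gr γ κ H v y σ ∂(mS d) := by
  have hfin : IsFiniteMeasure (mS d) := by unfold mS; infer_instance
  have hc : Measurable fun p : E d × Sd d => (p.1, (p.2 : E d)) :=
    measurable_fst.prodMk (measurable_subtype_coe.comp measurable_snd)
  have h1 : AEMeasurable (Function.uncurry fun (k : E d) (σ : Sd d) => Gl γ κ H v k (σ : E d))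
      ((volume : Measure (E d)).prod (mS d)) := ((meas_Gl γ κ hκ H hH v).comp hc).aemeasurable
  have h2 : AEMeasurable (Function.uncurry fun (k : E d) (σ : Sd d) => Gr γ κ H v k (σ : E d))
      ((volume : Measure (E d)).prod (mS d)) := ((meas_Gr γ κ hκ H hH v).comp hc).aemeasurable
  rw [lintegral_lintegral_swap h1, lintegral_lintegral_swap h2]
  refine lintegral_congr fun σ => ?_
  exact fixed hd γ κ hκ H hH v σ (norm_eq_of_mem_sphere σ)

theorem t_GAIN : S_GAIN := by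
  intro d hd γ hγ κ hκ H hH v
  refine ⟨gain1 hd γ κ hκ H hH v, ?_⟩
  have h := gain1 hd γ (fun z => κ (-z)) (hκ.comp measurable_neg) (fun p => H (p.2, p.1))
    (hH.comp (measurable_snd.prodMk measurable_fst)) v
  have hL : ∀ k : E d, ∫⁻ σ : Sd d, Gl γ (fun z => κ (-z)) (fun p => H (p.2, p.1)) v k σ ∂(mS d) =
      ∫⁻ σ : Sd d, Gl γ κ H v k σ ∂(mS d) := by
    intro k
    have hm0 := (meas_Gl γ κ hκ H hH v).comp (measurable_prodMk_left (x := k))
    have hm : Measurable fun σ : E d => Gl γ κ H v k σ := hm0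
    rw [← t_ISO d (LinearIsometryEquiv.neg ℝ) (fun σ => Gl γ κ H v k σ) hm]
    refine lintegral_congr fun σ => ?_
    unfold Gl ip
    simp only [LinearIsometryEquiv.coe_neg, inner_neg_right, smul_neg, sub_neg_eq_add, neg_div]
    simp only [sub_eq_add_neg]
  have hR : ∀ y : E d, ∫⁻ σ : Sd d, Gr γ (fun z => κ (-z)) (fun p => H (p.2, p.1)) v y σ ∂(mS d) =
      ∫⁻ σ : Sd d, (if 0 < ip y σ then ENNReal.ofReal (‖y‖ ^ γ) *
      (ENNReal.ofReal (2 ^ (d - 1) * (ip y σ / ‖y‖) ^ (-(2 + γ))) *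
        κ (1 - 2 * (ip y σ / ‖y‖) ^ 2)) * H (vq v y σ, v - y) else 0) ∂(mS d) := by
    intro y
    refine lintegral_congr fun σ => ?_
    unfold Gr
    simp only [neg_sub]
  simp only [hL, hR] at h
  exact h

end Pool.Agent.L7h12.BI
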