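import Pool.Agent.L7h12.BI.Gain
import Pool.Agent.L7h99.BI.Stm3

set_option autoImplicit false

open MeasureTheory Set Filter Topology Real Metric
open scoped ENNReal Pointwise

namespace Pool.Agent.L7h12.BI

open Pool.Agent.L7h99.BI

theorem t_GAIN3 : S_GAIN3 := by
  intro d hd γ κ hκ H hH v
  refine ⟨gain1 hd γ κ hκ H hH v, ?_⟩
  have h := gain1 hd γ (fun z => κ (-z)) (hκ.comp measurable_neg) (fun p => H (p.2, p.1))
    (hH.comp (measurable_snd.prodMk measurable_fst)) v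
  have hL : ∀ k : E d, ∫⁻ σ : Sd d, Gl γ (fun z => κ (-z)) (fun p => H (p.2, p.1)) v k σ ∂(mS d) =
      ∫⁻ σ : Sd d, Gl γ κ H v k σ ∂(mS d) := by
    intro k
    have hm0 := (meas_Gl γ κ hκ H hH v).comp (measurable_prodMk_left (x := k))
    have hm : Measurable fun σ : E d => Gl γ κ H v k σ := hm0
    rw [← t_ISO d (LinearIsometryEquiv.neg ℝ) (fun σ => Gl γ κ H v k σ) hm]
    refine lintegral_congr fun σ => ?_
    unfold Gl ip
    simp only [LinearIsometryEquiv.coe_neg, inner_neg_right, smul_neg, sub_neg_eq_add, neg_div]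
    simp only [sub_eq_add_neg]
  have hR : ∀ y : E d, ∫⁻ σ : Sd d, Gr γ (fun z => κ (-z)) (fun p => H (p.2, p.1)) v y σ ∂(mS d) =
      ∫⁻ σ : Sd d, (if 0 < ip y σ then ENNReal.ofReal (‖y‖ ^ γ) *
      (ENNReal.ofReal (2 ^ (d - 1) * (ip y σ / ‖y‖) ^ (-(2 + γ))) *
        κ (1 - 2 * (ip y σ / ‖y‖) ^ 2)) * H (vq v y σ, v - y) else 0) ∂(mS d) := by
    intro y
    refine lintegral_congr fun σ => ?_
    unfold Gr
    simp only [neg_sub]
  simp only [hL, hR] at h
  exact h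

end Pool.Agent.L7h12.BI
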