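import Pool.Agent.L7h50.BI.In1
import Pool.Agent.L7h99.BI.Stm3

/-! Project BI3 (MP_187b32_an), part IN13: as `L7h50/BI/In1.lean`, for every real `γ`. -/

set_option autoImplicit false

open MeasureTheory Set Filter Topology Real
open scoped ENNReal

namespace Pool.Agent.L7h12.BI

open Pool.Agent.L7h99.BI
open Pool.Agent.L7h50.BI
open Pool.Agent.L7h65.BI (hh hh_eq hh_Rf hh_sq Rf ip_Rf meas_ip meas_Bt meas_vq sd)

/-- **IN1** -/
theorem t_IN13 : S_IN13 := by
  intro hI hBB d hd s hs hs1 γ b c₁ c₂ hK K hK0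
  obtain ⟨⟨C, hC, hB1⟩, hB2, -⟩ := hBB d hd s hs hs1 γ b c₁ c₂ hK
  obtain ⟨q₀, hq₀, hB2⟩ := hB2 (K + 1)
  refine ⟨q₀, hq₀, fun q hq => ?_⟩
  have hq0 : 0 < q := hq₀.trans_le hq
  obtain ⟨ε₀, hε₀, hε₀1, hB2⟩ := hB2 q hq
  -- the choice of `δ`
  obtain ⟨δ, hδ, hδ1, hDC⟩ : ∃ δ : ℝ, 0 < δ ∧ δ ≤ 1 / 20 ∧ DD q δ * C ≤ 1 := by
    set R : ℝ := 8 * (q / 2) * (q / 2 + 1) * (19 / 20) ^ (-(q / 2) - 2) * C with hR
    have hR0 : 0 < R := by positivity
    refine ⟨min (1 / 20) (1 / (R + 1)), lt_min (by norm_num) (by positivity), min_le_left _ _, ?_⟩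
    set δ := min (1 / 20) (1 / (R + 1)) with hδ
    have h1 : δ ≤ 1 / (R + 1) := min_le_right _ _
    have h2 : 0 < δ := lt_min (by norm_num) (by positivity)
    have h3 : δ ≤ 1 := (min_le_left _ _).trans (by norm_num)
    have h4 : DD q δ * C = R * δ ^ 2 := by
      unfold DD
      rw [hR]
      ring
    rw [h4]
    have h5 : R * δ ≤ 1 := by
      calc R * δ ≤ R * (1 / (R + 1)) := mul_le_mul_of_nonneg_left h1 hR0.le
        _ = R / (R + 1) := by ring
        _ ≤ 1 := by
          rw [div_le_one (by positivity)]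
          linarith
    nlinarith
  refine ⟨δ, ε₀, hδ, hδ1, hε₀, hε₀1, fun ε hε hεε F m hF hF0 hm hFm v y hv hvy => ?_⟩
  have hv0 : 0 < ‖v‖ := by linarith
  have hyn : 0 < ‖y‖ := by
    have h1 : ‖v‖ ≤ ‖v - y‖ + ‖y‖ := by
      calc ‖v‖ = ‖(v - y) + y‖ := by rw [sub_add_cancel]
        _ ≤ _ := norm_add_le _ _
    nlinarith
  have hy : y ≠ 0 := norm_pos_iff.1 hyn
  have hφ : 0 < ph q v := by unfold ph; positivity
  have hDD : 0 ≤ DD q δ := by
    unfold DD
    positivity
  have mB : Measurable fun σ : E d => Bt d γ b ε (ip y σ / ‖y‖) :=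
    (meas_Bt hK.meas ε).comp ((meas_ip y).div_const _)
  have mvq := meas_vq v y
  have mph : Measurable fun a : E d => ph q a := by
    unfold ph
    fun_prop
  have mN : Measurable fun σ : E d => ENNReal.ofReal (ph q (vq v y σ)) :=
    ENNReal.measurable_ofReal.comp (mph.comp mvq)
  set W : Sd d → ℝ≥0∞ := fun σ => Bt d γ b ε (ip y σ / ‖y‖) with hW
  have mW : Measurable W := mB.comp measurable_subtype_coe
  have mWN : Measurable fun σ : Sd d => W σ * ENNReal.ofReal (ph q (vq v y σ)) :=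
    mW.mul (mN.comp measurable_subtype_coe)
  -- the integral of the barrier
  set I : ℝ≥0∞ := ∫⁻ σ : Sd d, W σ * ENNReal.ofReal (ph q (vq v y σ)) ∂(mS d) with hIdef
  have hsym : ∫⁻ σ : Sd d, W σ * ENNReal.ofReal (ph q (v - hh v y σ)) ∂(mS d) = I := by
    have h1 := hI d (Rf y) (fun σ => Bt d γ b ε (ip y σ / ‖y‖) *
      ENNReal.ofReal (ph q (vq v y σ))) (mB.mul mN)
    rw [hIdef, hW]
    refine Eq.trans (lintegral_congr fun σ => ?_) h1
    simp only
    rw [ip_Rf hy]
    by_cases h0 : ip y (σ : E d) = 0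
    · have : Bt d γ b ε (ip y (σ : E d) / ‖y‖) = 0 := by
        unfold Bt
        rw [h0, zero_div, if_neg (lt_irrefl _)]
      rw [this, zero_mul, zero_mul]
    · have h2 : vq v y (Rf y σ) = v - hh v y σ := by
        have := hh_Rf (v := v) hy h0
        unfold hh at this ⊢
        rw [sub_eq_iff_eq_add.1 this]
        abel
      rw [h2]
  have hnn : ‖(‖y‖)⁻¹ • y‖ = 1 := by
    rw [norm_smul, norm_inv, norm_norm, inv_mul_cancel₀ hyn.ne']
  have hin : ∀ σ : E d, ip ((‖y‖)⁻¹ • y) σ = ip y σ / ‖y‖ := by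
    intro σ
    unfold ip
    rw [real_inner_smul_left]
    field_simp
  have hb1 : ∫⁻ σ : Sd d, W σ * ENNReal.ofReal (min 1 ((1 : ℝ) ^ 2 *
      ((1 - (ip y σ / ‖y‖) ^ 2) / (ip y σ / ‖y‖) ^ 2))) ∂(mS d) ≤ ENNReal.ofReal C := by
    have h1 := hB1 ε hε (hεε.trans hε₀1) ((‖y‖)⁻¹ • y) hnn 1 one_pos
    simp only [hin] at h1
    rwa [one_rpow, mul_one] at h1
  have hb2 : ENNReal.ofReal (K + 1) ≤ ∫⁻ σ : Sd d, W σ * ENNReal.ofReal
      (1 - (1 + (1 - (ip y σ / ‖y‖) ^ 2) / (8 * (ip y σ / ‖y‖) ^ 2)) ^ (-(q / 2))) ∂(mS d) := by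
    have h1 := hB2 ε hε hεε ((‖y‖)⁻¹ • y) hnn
    simp only [hin] at h1
    exact h1
  set U : Sd d → ℝ := fun σ =>
    (1 + (1 - (ip y σ / ‖y‖) ^ 2) / (8 * (ip y σ / ‖y‖) ^ 2)) ^ (-(q / 2)) with hU
  have hcle : ∀ σ : Sd d, (ip y σ / ‖y‖) ^ 2 ≤ 1 := by
    intro σ
    have := zz_abs y σ
    unfold zz at this
    rw [← sq_abs]
    exact pow_le_one₀ (abs_nonneg _) this
  have hU01 : ∀ σ, 0 ≤ U σ ∧ U σ ≤ 1 := by
    intro σ
    have h1 : 0 ≤ (1 - (ip y σ / ‖y‖) ^ 2) / (8 * (ip y σ / ‖y‖) ^ 2) :=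
      div_nonneg (by linarith [hcle σ]) (by positivity)
    refine ⟨rpow_nonneg (by linarith) _, ?_⟩
    exact rpow_le_one_of_one_le_of_nonpos (by linarith) (by linarith)
  have mU : Measurable fun σ : Sd d => ENNReal.ofReal (U σ) := by
    refine ENNReal.measurable_ofReal.comp ?_
    have h1 : Measurable fun σ : Sd d => ip y (σ : E d) / ‖y‖ :=
      ((meas_ip y).comp measurable_subtype_coe).div_const _
    rw [hU]
    fun_prop
  have mWU : Measurable fun σ : Sd d => W σ * ENNReal.ofReal (U σ) := mW.mul mU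
  set J : ℝ≥0∞ := ∫⁻ σ : Sd d, W σ * ENNReal.ofReal (U σ) ∂(mS d) with hJ
  have hJle : J + ENNReal.ofReal (K + 1) ≤ ∫⁻ σ : Sd d, W σ ∂(mS d) := by
    calc J + ENNReal.ofReal (K + 1) ≤ J + ∫⁻ σ : Sd d, W σ * ENNReal.ofReal (1 - U σ) ∂(mS d) :=
          add_le_add_right hb2 J
      _ = ∫⁻ σ : Sd d, (W σ * ENNReal.ofReal (U σ) + W σ * ENNReal.ofReal (1 - U σ)) ∂(mS d) := by
          rw [lintegral_add_left mWU]
      _ = ∫⁻ σ : Sd d, W σ ∂(mS d) := by
          refine lintegral_congr fun σ => ?_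
          obtain ⟨u0, u1⟩ := hU01 σ
          rw [← mul_add, ← ENNReal.ofReal_add u0 (by linarith), add_sub_cancel,
            ENNReal.ofReal_one, mul_one]
  have h2I : I + I ≤ ENNReal.ofReal (2 * ph q v) * J +
      ENNReal.ofReal (2 * (ph q v * DD q δ)) * ENNReal.ofReal C := by
    calc I + I = ∫⁻ σ : Sd d, (W σ * ENNReal.ofReal (ph q (vq v y σ)) +
          W σ * ENNReal.ofReal (ph q (v - hh v y σ))) ∂(mS d) := by
          rw [lintegral_add_left mWN, hsym]
      _ ≤ ∫⁻ σ : Sd d, (ENNReal.ofReal (2 * ph q v) * (W σ * ENNReal.ofReal (U σ)) +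
          ENNReal.ofReal (2 * (ph q v * DD q δ)) *
          (W σ * ENNReal.ofReal (min 1 ((1 : ℝ) ^ 2 *
            ((1 - (ip y σ / ‖y‖) ^ 2) / (ip y σ / ‖y‖) ^ 2))))) ∂(mS d) := by
          refine lintegral_mono fun σ => ?_
          have hσ : ‖(σ : E d)‖ = 1 := norm_sph σ
          by_cases hz : W σ = 0
          · rw [hz]
            simp
          · have hcpos : 0 < ip y (σ : E d) / ‖y‖ := by
              by_contra hcon
              apply hz
              simp only [hW]
              unfold Bt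
              rw [if_neg hcon]
            have hchalf : 1 / 2 ≤ (ip y (σ : E d) / ‖y‖) ^ 2 := by
              by_contra hcon
              push Not at hcon
              exact hz (Bt_zero hcpos hcon)
            have h0 : ip y (σ : E d) ≠ 0 := by
              intro h
              rw [h, zero_div] at hcpos
              exact lt_irrefl _ hcpos
            have h3 := pt_in1 hq0 hδ hδ1 hσ hv hvy h0 (hcle σ)
            have h4 : v + hh v y σ = vq v y σ := by unfold hh; abel
            rw [h4] at h3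
            have hΘ0 : 0 ≤ (1 - (ip y (σ : E d) / ‖y‖) ^ 2) / (ip y (σ : E d) / ‖y‖) ^ 2 :=
              div_nonneg (by linarith [hcle σ]) (by positivity)
            have hmin : min 1 ((1 : ℝ) ^ 2 *
                ((1 - (ip y (σ : E d) / ‖y‖) ^ 2) / (ip y (σ : E d) / ‖y‖) ^ 2)) =
                (1 - (ip y (σ : E d) / ‖y‖) ^ 2) / (ip y (σ : E d) / ‖y‖) ^ 2 := by
              rw [one_pow, one_mul]
              apply min_eq_right
              rw [div_le_one (by linarith)]
              linarith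
            rw [hmin]
            set Θ := (1 - (ip y (σ : E d) / ‖y‖) ^ 2) / (ip y (σ : E d) / ‖y‖) ^ 2 with hΘ
            have e1 : ENNReal.ofReal (ph q (vq v y σ)) + ENNReal.ofReal (ph q (v - hh v y σ)) ≤
                ENNReal.ofReal (2 * ph q v) * ENNReal.ofReal (U σ) +
                  ENNReal.ofReal (2 * (ph q v * DD q δ)) * ENNReal.ofReal Θ := by
              have p1 : 0 ≤ ph q (vq v y σ) := by unfold ph; positivity
              have p2 : 0 ≤ ph q (v - hh v y σ) := by unfold ph; positivity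
              rw [← ENNReal.ofReal_add p1 p2, ← ENNReal.ofReal_mul (by positivity),
                ← ENNReal.ofReal_mul (by positivity),
                ← ENNReal.ofReal_add (mul_nonneg (by positivity) (hU01 σ).1) (by positivity)]
              apply ENNReal.ofReal_le_ofReal
              refine h3.trans (le_of_eq ?_)
              show 2 * ph q v * (U σ + DD q δ * Θ) = _
              ring
            calc W σ * ENNReal.ofReal (ph q (vq v y σ)) +
                  W σ * ENNReal.ofReal (ph q (v - hh v y σ))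
                = W σ * (ENNReal.ofReal (ph q (vq v y σ)) +
                  ENNReal.ofReal (ph q (v - hh v y σ))) := by rw [mul_add]
              _ ≤ W σ * (ENNReal.ofReal (2 * ph q v) * ENNReal.ofReal (U σ) +
                  ENNReal.ofReal (2 * (ph q v * DD q δ)) * ENNReal.ofReal Θ) :=
                  mul_le_mul_right e1 _
              _ = _ := by ring
      _ = ENNReal.ofReal (2 * ph q v) * J + ENNReal.ofReal (2 * (ph q v * DD q δ)) *
          ∫⁻ σ : Sd d, W σ * ENNReal.ofReal (min 1 ((1 : ℝ) ^ 2 *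
            ((1 - (ip y σ / ‖y‖) ^ 2) / (ip y σ / ‖y‖) ^ 2))) ∂(mS d) := by
          rw [lintegral_add_left (mWU.const_mul _),
            lintegral_const_mul' _ _ ENNReal.ofReal_ne_top,
            lintegral_const_mul' _ _ ENNReal.ofReal_ne_top]
      _ ≤ _ := add_le_add_right (mul_le_mul_right hb1 _) _
  have hIle : I ≤ ENNReal.ofReal (ph q v) * (J + 1) := by
    have h3 : 2 * I ≤ 2 * (ENNReal.ofReal (ph q v) * (J + 1)) := by
      rw [two_mul]
      refine h2I.trans ?_
      rw [ENNReal.ofReal_mul (by norm_num : (0 : ℝ) ≤ 2),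
        ENNReal.ofReal_mul (by norm_num : (0 : ℝ) ≤ 2), ENNReal.ofReal_ofNat, mul_assoc, mul_assoc,
        ← mul_add]
      refine mul_le_mul_right ?_ _
      rw [mul_add, mul_one]
      refine add_le_add_right ?_ _
      rw [← ENNReal.ofReal_mul (by positivity)]
      apply ENNReal.ofReal_le_ofReal
      calc ph q v * DD q δ * C = ph q v * (DD q δ * C) := by ring
        _ ≤ ph q v * 1 := mul_le_mul_of_nonneg_left hDC hφ.le
        _ = ph q v := mul_one _
    exact (ENNReal.mul_le_mul_iff_right two_ne_zero ENNReal.ofNat_ne_top).1 h3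
  calc (∫⁻ σ : Sd d, W σ * ENNReal.ofReal (F (vq v y σ)) ∂(mS d)) +
        ENNReal.ofReal (K * (m * ph q v))
      ≤ ENNReal.ofReal m * I + ENNReal.ofReal (m * ph q v) * ENNReal.ofReal K := by
        refine add_le_add ?_ ?_
        · rw [hIdef, ← lintegral_const_mul' _ _ ENNReal.ofReal_ne_top]
          refine lintegral_mono fun σ => ?_
          have h5 : ENNReal.ofReal (F (vq v y σ)) ≤
              ENNReal.ofReal m * ENNReal.ofReal (ph q (vq v y σ)) := by
            rw [← ENNReal.ofReal_mul hm.le]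
            exact ENNReal.ofReal_le_ofReal (hFm _)
          calc W σ * ENNReal.ofReal (F (vq v y σ)) ≤
              W σ * (ENNReal.ofReal m * ENNReal.ofReal (ph q (vq v y σ))) := mul_le_mul_right h5 _
            _ = _ := by ring
        · rw [← ENNReal.ofReal_mul (by positivity)]
          apply ENNReal.ofReal_le_ofReal
          apply le_of_eq
          ring
    _ ≤ ENNReal.ofReal m * (ENNReal.ofReal (ph q v) * (J + 1)) +
        ENNReal.ofReal (m * ph q v) * ENNReal.ofReal K := add_le_add_left (mul_le_mul_right hIle _) _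
    _ = ENNReal.ofReal (m * ph q v) * (J + ENNReal.ofReal (K + 1)) := by
        rw [← mul_assoc, ← ENNReal.ofReal_mul hm.le, ← mul_add,
          ENNReal.ofReal_add hK0.le zero_le_one, ENNReal.ofReal_one, add_assoc,
          add_comm (1 : ℝ≥0∞)]
    _ ≤ _ := mul_le_mul_right hJle _

end Pool.Agent.L7h12.BI
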