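import Pool.Agent.L7h99.BI.Stm

set_option autoImplicit false

open MeasureTheory Set Filter Topology Real Metric
open scoped ENNReal Pointwise

namespace Pool.Agent.L7h12.BI

open Pool.Agent.L7h99.BI

/-- the map of the sphere given by a linear isometry -/
noncomputable def smap {d : ℕ} (U : E d ≃ₗᵢ[ℝ] E d) (u : Sd d) : Sd d :=
  ⟨U u, by
    have h : ‖(u : E d)‖ = 1 := norm_eq_of_mem_sphere u
    rw [mem_sphere_zero_iff_norm, U.norm_map, h]⟩

lemma smap_continuous {d : ℕ} (U : E d ≃ₗᵢ[ℝ] E d) : Continuous (smap U) :=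
  Continuous.subtype_mk (U.continuous.comp continuous_subtype_val) _

lemma toSphere_map {d : ℕ} (U : E d ≃ₗᵢ[ℝ] E d) :
    Measure.map (smap U) ((volume : Measure (E d)).toSphere) = (volume : Measure (E d)).toSphere := by
  ext s hs
  rw [Measure.map_apply (smap_continuous U).measurable hs,
    Measure.toSphere_apply' _ ((smap_continuous U).measurable hs), Measure.toSphere_apply' _ hs]
  congr 1
  have h1 : (Ioo (0 : ℝ) 1 • ((↑) '' (smap U ⁻¹' s)) : Set (E d)) =
      U ⁻¹' (Ioo (0 : ℝ) 1 • ((↑) '' s)) := by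
    ext x
    constructor
    · rintro ⟨c, hc, _, ⟨u, hu, rfl⟩, rfl⟩
      refine ⟨c, hc, U u, ⟨smap U u, hu, rfl⟩, ?_⟩
      show c • U (u : E d) = U (c • (u : E d))
      rw [map_smul]
    · rintro ⟨c, hc, _, ⟨u, hu, rfl⟩, h⟩
      refine ⟨c, hc, U.symm u, ⟨⟨U.symm u, ?_⟩, ?_, rfl⟩, ?_⟩
      · have h : ‖(u : E d)‖ = 1 := norm_eq_of_mem_sphere u
        rw [mem_sphere_zero_iff_norm, U.symm.norm_map, h]
      · show smap U ⟨U.symm u, _⟩ ∈ s
        have : smap U ⟨U.symm u, by
            have h : ‖(u : E d)‖ = 1 := norm_eq_of_mem_sphere u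
            rw [mem_sphere_zero_iff_norm, U.symm.norm_map, h]⟩ = u := by
          apply Subtype.ext
          simp [smap]
        rw [this]; exact hu
      · have h' : c • (u : E d) = U x := h
        show c • U.symm (u : E d) = x
        rw [← map_smul, h', U.symm_apply_apply]
  rw [h1]
  exact (U.measurePreserving).measure_preimage_equiv (f := U.toMeasurableEquiv) _

theorem t_ISO : S_ISO := by
  intro d L G hG
  have h := toSphere_map (d := d) L
  have h2 : ∫⁻ σ : Sd d, G (σ : E d) ∂(mS d) =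
      ∫⁻ σ : Sd d, G (σ : E d) ∂(Measure.map (smap L) (mS d)) := by
    unfold mS
    rw [h]
  have hm : Measurable (fun σ : Sd d => G (σ : E d)) := hG.comp measurable_subtype_coe
  rw [h2]
  exact (lintegral_map hm (smap_continuous L).measurable).symm

end Pool.Agent.L7h12.BI
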