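import Pool.Agent.L7h99.BI.Stm3
import Mathlib.MeasureTheory.Constructions.HaarToSphere
import Mathlib.Analysis.SpecialFunctions.JapaneseBracket
import Mathlib.Analysis.SpecialFunctions.Integrals.Basic

set_option autoImplicit false

/-! # BI3: Riesz potentials -/

open MeasureTheory Set Filter Topology Real Metric
open scoped ENNReal Pointwise

namespace Pool.Agent.L7h12.BI

open Pool.Agent.L7h99.BI

/-- the local part of the Riesz kernel -/
theorem riesz_loc {d : ℕ} {γ : ℝ} (hd : 2 ≤ d) (hγ : -(d : ℝ) < γ) :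
    ∃ A : ℝ, 0 ≤ A ∧ ∀ R : ℝ, 0 < R →
      Integrable (fun y : E d => if ‖y‖ < R then ‖y‖ ^ γ else 0) ∧
      ∫ y : E d, (if ‖y‖ < R then ‖y‖ ^ γ else 0) = A * R ^ ((d : ℝ) + γ) := by
  have hne : Nonempty (Fin d) := ⟨⟨0, by omega⟩⟩
  have hdim : Module.finrank ℝ (E d) = d := by simp
  have hd1 : (1 : ℝ) ≤ d := by exact_mod_cast (by omega : 1 ≤ d)
  have hfun : ∀ R : ℝ, 0 < R → ∀ y ∈ Ioi (0 : ℝ), y ^ (d - 1) • (if y < R then y ^ γ else 0) =
      (Ioc 0 R).indicator (fun y : ℝ => y ^ ((d : ℝ) - 1 + γ)) y -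
        ({R} : Set ℝ).indicator (fun y : ℝ => y ^ ((d : ℝ) - 1 + γ)) y := by
    intro R hR y hy
    have hy0 : 0 < y := hy
    have e : y ^ (d - 1) * y ^ γ = y ^ ((d : ℝ) - 1 + γ) := by
      rw [Real.rpow_add hy0, ← Real.rpow_natCast y (d - 1), Nat.cast_sub (by omega)]
      norm_num
    rcases lt_trichotomy y R with h | h | h
    · rw [if_pos h, indicator_of_mem (show y ∈ Ioc 0 R from ⟨hy0, h.le⟩),
        indicator_of_notMem (by simpa using h.ne), sub_zero, smul_eq_mul, e]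
    · rw [if_neg (by rw [h]; exact lt_irrefl _),
        indicator_of_mem (show y ∈ Ioc 0 R from ⟨hy0, h.le⟩),
        indicator_of_mem (by simpa using h), smul_zero, sub_self]
    · rw [if_neg (by linarith), indicator_of_notMem (fun hh => absurd hh.2 (not_le.2 h)),
        indicator_of_notMem (by simpa using h.ne'), smul_zero, sub_self]
  refine ⟨d * (volume : Measure (E d)).real (ball 0 1) * (1 / ((d : ℝ) + γ)), ?_, ?_⟩
  · have : 0 < (d : ℝ) + γ := by linarith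
    positivity
  intro R hR
  have hint0 : IntervalIntegrable (fun y : ℝ => y ^ ((d : ℝ) - 1 + γ)) volume 0 R :=
    intervalIntegral.intervalIntegrable_rpow' (by linarith)
  have hint1 : IntegrableOn (fun y : ℝ => y ^ ((d : ℝ) - 1 + γ)) (Ioc 0 R) :=
    (intervalIntegrable_iff_integrableOn_Ioc_of_le hR.le).1 hint0
  have hint2 : Integrable ((Ioc 0 R).indicator (fun y : ℝ => y ^ ((d : ℝ) - 1 + γ))) :=
    hint1.integrable_indicator measurableSet_Ioc
  have hae : (fun y : ℝ => y ^ (d - 1) • (if y < R then y ^ γ else 0)) =ᵐ[volume.restrict (Ioi 0)]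
      ((Ioc 0 R).indicator (fun y : ℝ => y ^ ((d : ℝ) - 1 + γ))) := by
    have h1 : ∀ᵐ y : ℝ ∂(volume.restrict (Ioi 0)), y ∈ ({R}ᶜ : Set ℝ) := by
      apply ae_restrict_of_ae
      exact measure_eq_zero_iff_ae_notMem.1 (measure_singleton R)
    filter_upwards [h1, self_mem_ae_restrict measurableSet_Ioi] with y hy1 hy2
    rw [hfun R hR y hy2, indicator_of_notMem (s := ({R} : Set ℝ)) hy1, sub_zero]
  have key := integrable_fun_norm_addHaar (μ := (volume : Measure (E d)))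
    (f := fun y : ℝ => if y < R then y ^ γ else 0)
  rw [hdim] at key
  have key2 := integral_fun_norm_addHaar (μ := (volume : Measure (E d)))
    (f := fun y : ℝ => if y < R then y ^ γ else 0)
  rw [hdim] at key2
  refine ⟨key.2 ?_, ?_⟩
  · exact (hint2.integrableOn (s := Ioi 0)).congr hae.symm
  · rw [key2, integral_congr_ae hae, setIntegral_indicator measurableSet_Ioc]
    have e1 : Ioi (0 : ℝ) ∩ Ioc 0 R = Ioc 0 R := by
      ext y; simp only [mem_inter_iff, mem_Ioi, mem_Ioc]; tauto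
    rw [e1, ← intervalIntegral.integral_of_le hR.le, integral_rpow (Or.inl (by linarith))]
    have e2 : (d : ℝ) - 1 + γ + 1 = (d : ℝ) + γ := by ring
    rw [e2, Real.zero_rpow (by linarith), sub_zero]
    simp only [nsmul_eq_mul, smul_eq_mul]
    ring

theorem riesz_loc' {d : ℕ} {γ : ℝ} (hd : 2 ≤ d) (hγ : -(d : ℝ) < γ) :
    ∃ A : ℝ, 0 ≤ A ∧ ∀ R : ℝ, 0 < R → ∀ v : E d,
      Integrable (fun w : E d => if ‖v - w‖ < R then ‖v - w‖ ^ γ else 0) ∧
      ∫ w : E d, (if ‖v - w‖ < R then ‖v - w‖ ^ γ else 0) = A * R ^ ((d : ℝ) + γ) := by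
  obtain ⟨A, hA, h⟩ := riesz_loc (d := d) hd hγ
  refine ⟨A, hA, fun R hR v => ⟨?_, ?_⟩⟩
  · exact (h R hR).1.comp_sub_left v
  · rw [← (h R hR).2]
    exact integral_sub_left_eq_self (fun y : E d => if ‖y‖ < R then ‖y‖ ^ γ else 0) volume v

theorem riesz_pt {d : ℕ} {γ : ℝ} (hγ : γ ≤ 0) {F : E d → ℝ} {M R : ℝ} (hR : 0 < R)
    (h0 : ∀ v, 0 ≤ F v) (hM : ∀ v, F v ≤ M) (v w : E d) :
    F w * ‖v - w‖ ^ γ ≤ M * (if ‖v - w‖ < R then ‖v - w‖ ^ γ else 0) + R ^ γ * F w := by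
  have h1 : 0 ≤ R ^ γ := (Real.rpow_pos_of_pos hR _).le
  have h2 : 0 ≤ ‖v - w‖ ^ γ := Real.rpow_nonneg (norm_nonneg _) _
  by_cases h : ‖v - w‖ < R
  · rw [if_pos h]
    nlinarith [mul_le_mul_of_nonneg_right (hM w) h2, mul_nonneg h1 (h0 w)]
  · rw [if_neg h, mul_zero, zero_add, mul_comm]
    exact mul_le_mul_of_nonneg_right
      (Real.rpow_le_rpow_of_nonpos hR (not_lt.1 h) hγ) (h0 w)

theorem meas_k {d : ℕ} (γ : ℝ) (v : E d) : Measurable fun w : E d => ‖v - w‖ ^ γ :=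
  (measurable_const.sub measurable_id).norm.pow_const γ

theorem riesz_int {d : ℕ} {γ : ℝ} (hd : 2 ≤ d) (hγ : -(d : ℝ) < γ) (hγ0 : γ ≤ 0) {F : E d → ℝ}
    {M : ℝ} (h0 : ∀ v, 0 ≤ F v) (hM : ∀ v, F v ≤ M) (hF : Integrable F) (v : E d) :
    Integrable (fun w : E d => F w * ‖v - w‖ ^ γ) := by
  obtain ⟨A, hA, h⟩ := riesz_loc' (d := d) hd hγ
  refine Integrable.mono' (((h 1 one_pos v).1.const_mul M).add (hF.const_mul (1 ^ γ)))
    (hF.aestronglyMeasurable.mul (meas_k γ v).aestronglyMeasurable) (Eventually.of_forall fun w => ?_)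
  rw [Real.norm_of_nonneg (mul_nonneg (h0 w) (Real.rpow_nonneg (norm_nonneg _) _))]
  exact riesz_pt hγ0 one_pos h0 hM v w

theorem riesz_main {d : ℕ} {γ : ℝ} (hd : 2 ≤ d) (hγ : -(d : ℝ) < γ) (hγ0 : γ ≤ 0) :
    ∃ C : ℝ, 0 < C ∧ ∀ (F : E d → ℝ) (M : ℝ), 0 < M → (∀ v, 0 ≤ F v) → (∀ v, F v ≤ M) →
    Integrable F → ∀ v : E d, Integrable (fun w : E d => F w * ‖v - w‖ ^ γ) ∧
      ∫ w : E d, F w * ‖v - w‖ ^ γ ≤ C * M ^ (-γ / d) * (∫ w, F w) ^ (1 + γ / d) := by
  obtain ⟨A, hA, h⟩ := riesz_loc' (d := d) hd hγ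
  have hd0 : (0 : ℝ) < d := by exact_mod_cast (by omega : 0 < d)
  refine ⟨A + 1, by linarith, fun F M hM0 h0 hM hF v => ⟨riesz_int hd hγ hγ0 h0 hM hF v, ?_⟩⟩
  set I : ℝ := ∫ w, F w with hI
  have hI0 : 0 ≤ I := integral_nonneg h0
  have hex : 0 < 1 + γ / d := by
    have : -1 < γ / d := by
      rw [lt_div_iff₀ hd0]
      linarith
    linarith
  rcases eq_or_lt_of_le hI0 with hz | hpos
  · have hF0 : F =ᵐ[volume] 0 := (integral_eq_zero_iff_of_nonneg h0 hF).1 hz.symm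
    have : ∫ w : E d, F w * ‖v - w‖ ^ γ = 0 := by
      rw [integral_eq_zero_of_ae]
      filter_upwards [hF0] with w hw
      rw [hw]
      simp
    rw [this, ← hz, Real.zero_rpow hex.ne', mul_zero]
  · set R : ℝ := (I / M) ^ (1 / (d : ℝ)) with hR
    have hIM : 0 < I / M := div_pos hpos hM0
    have hR0 : 0 < R := Real.rpow_pos_of_pos hIM _
    have hb : ∫ w : E d, F w * ‖v - w‖ ^ γ ≤
        ∫ w : E d, (M * (if ‖v - w‖ < R then ‖v - w‖ ^ γ else 0) + R ^ γ * F w) := by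
      refine integral_mono (riesz_int hd hγ hγ0 h0 hM hF v)
        (((h R hR0 v).1.const_mul M).add (hF.const_mul (R ^ γ))) (fun w => ?_)
      exact riesz_pt hγ0 hR0 h0 hM v w
    rw [integral_add ((h R hR0 v).1.const_mul M) (hF.const_mul (R ^ γ)), integral_const_mul,
      integral_const_mul, (h R hR0 v).2, ← hI] at hb
    refine hb.trans (le_of_eq ?_)
    have e1 : R ^ ((d : ℝ) + γ) = I ^ (1 + γ / d) * M ^ (-(1 + γ / d)) := by
      rw [hR, ← Real.rpow_mul hIM.le, Real.div_rpow hI0 hM0.le, Real.rpow_neg hM0.le,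
        div_eq_mul_inv]
      have : 1 / (d : ℝ) * (d + γ) = 1 + γ / d := by field_simp
      rw [this]
    have e2 : R ^ γ = I ^ (γ / d) * M ^ (-γ / d) := by
      rw [hR, ← Real.rpow_mul hIM.le, Real.div_rpow hI0 hM0.le, neg_div, Real.rpow_neg hM0.le,
        div_eq_mul_inv]
      have : 1 / (d : ℝ) * γ = γ / d := by field_simp
      rw [this]
    have e3 : M * M ^ (-(1 + γ / d)) = M ^ (-γ / d) := by
      have h3 : M ^ ((1 : ℝ) + -(1 + γ / d)) = M ^ (1 : ℝ) * M ^ (-(1 + γ / d)) :=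
        Real.rpow_add hM0 _ _
      rw [Real.rpow_one] at h3
      rw [← h3]
      congr 1
      ring
    have e4 : I ^ (γ / d) * I = I ^ (1 + γ / d) := by
      have h4 : I ^ ((1 : ℝ) + γ / d) = I ^ (1 : ℝ) * I ^ (γ / d) := Real.rpow_add hpos _ _
      rw [Real.rpow_one] at h4
      rw [h4, mul_comm]
    rw [e1, e2]
    calc M * (A * (I ^ (1 + γ / d) * M ^ (-(1 + γ / d)))) + I ^ (γ / d) * M ^ (-γ / d) * I
        = A * (M * M ^ (-(1 + γ / d))) * I ^ (1 + γ / d) + M ^ (-γ / d) * (I ^ (γ / d) * I) := by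
          ring
      _ = (A + 1) * M ^ (-γ / d) * I ^ (1 + γ / d) := by rw [e3, e4]; ring

theorem ph_int {d : ℕ} {Q : ℝ} (hQ : (d : ℝ) < Q) : Integrable (fun w : E d => ph Q w) := by
  have hdim : Module.finrank ℝ (E d) = d := by simp
  have h := integrable_rpow_neg_one_add_norm_sq (E := E d) (μ := (volume : Measure (E d)))
    (r := Q) (by rw [hdim]; exact hQ)
  refine h.congr (Eventually.of_forall fun w => ?_)
  unfold ph
  simp only [neg_div]

theorem t_RZ : S_RZ := by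
  intro d γ hd hγ hγ0
  obtain ⟨C, hC, h⟩ := riesz_main (d := d) hd hγ hγ0
  refine ⟨fun Q hQ => ?_, C, hC, h⟩
  have hdq : (0 : ℝ) ≤ d := Nat.cast_nonneg d
  have h0 : ∀ w : E d, 0 ≤ ph Q w := fun w => by unfold ph; positivity
  have h1 : ∀ w : E d, ph Q w ≤ 1 := fun w => by
    unfold ph
    exact Real.rpow_le_one_of_one_le_of_nonpos (by nlinarith [sq_nonneg ‖w‖]) (by linarith)
  have hmain := h (fun w => ph Q w) 1 one_pos h0 h1 (ph_int hQ)
  refine ⟨C * 1 ^ (-γ / d) * (∫ w : E d, ph Q w) ^ (1 + γ / d) + 1, ?_, fun v => ⟨(hmain v).1, ?_⟩⟩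
  · have : 0 ≤ ∫ w : E d, ph Q w := integral_nonneg h0
    positivity
  · linarith [(hmain v).2]

end Pool.Agent.L7h12.BI
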